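import Pool.Agent.E8helper52.QK.Che

/-!
# Project EW: S_CHE, the values of the character (without the statement file)
-/

set_option autoImplicit false
set_option linter.unusedSectionVars false

open Filter Complex
open scoped Topology PeriodPair

namespace Pool.Agent.E8helper25.EW

open Pool.Agent.Y699
open Pool.Agent.E8helper21.QT (c4_rec' JJ_all)
open H385 (ZI RQ im1 nrm)
open Pool.Agent.H304R3.HK (tc HC LH)
open Pool.Agent.W164.RC (tc_mul tc_star two2 prim_iff_dvd unit_norm unit_cases)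
open Pool.Agent.H304R2.EC.A1 (prim prim_mul prim_cancel prim_one prim_norm_odd prim_star eq_one_of_prim
  norm_def' re_mul' im_mul' eq_of_dvd prim_ne_zero exists_prim)

/-- the norm of a primary number -/
lemma wq_norm {z : ZI} (hz : prim z) : z.norm = 4 * ((wq z : ℕ) : ℤ) + 1 := by
  obtain ⟨h1, h2⟩ := hz
  have hn := norm_def' z
  obtain ⟨k, hk⟩ : ∃ k, z.im = 2 * k := ⟨z.im / 2, by omega⟩
  obtain ⟨l, hl⟩ : ∃ l, z.re = 2 * l + 1 := ⟨z.re / 2, by omega⟩
  have e1 : z.norm = 4 * (l * (l + 1) + k * k) + 1 := by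
    rw [hn, hk, hl]; ring
  have hnn : 0 ≤ z.norm := Zsqrtd.norm_nonneg (by norm_num) z
  have hw : ((wq z : ℕ) : ℤ) = z.norm / 4 := by
    unfold wq nrm
    rw [Int.natCast_div, Int.natAbs_of_nonneg hnn]
    rfl
  rw [hw]
  omega

/-- the norm of the product modulo `8` -/
lemma norm_prod (S : Finset ZI) (h : ∀ l ∈ S, prim l) :
    (∏ l ∈ S, l).norm % 8 = (4 * ((∑ l ∈ S, wq l : ℕ) : ℤ) + 1) % 8 := by
  classical
  induction S using Finset.induction_on with
  | empty => simp [Zsqrtd.norm]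
  | insert a T ha ih =>
    have h1 := ih fun l hl => h l (Finset.mem_insert_of_mem hl)
    have h2 := wq_norm (h a (Finset.mem_insert_self _ _))
    rw [Finset.prod_insert ha, Finset.sum_insert ha, Zsqrtd.norm_mul, h2, Int.mul_emod, h1,
      ← Int.mul_emod]
    push_cast
    set x : ℤ := ((wq a : ℕ) : ℤ)
    set y : ℤ := ∑ l ∈ T, ((wq l : ℕ) : ℤ)
    have e : (4 * x + 1) * (4 * y + 1) = (4 * (x + y) + 1) + 8 * (2 * (x * y)) := by ring
    rw [e, Int.add_mul_emod_self_left]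

theorem che (S : Finset GaussianInt) (hre : (∏ l ∈ S, l).re % 8 = 5)
    (him : (∏ l ∈ S, l).im % 8 = 4) (hp : PF (fun l : {l // l ∈ S} => ((l : GaussianInt) : ZI))) :
    XX4 hp Finset.univ on1 pi1 = 0 ∧
    (∀ z : ZI, PP z → z ∣ ∏ l ∈ S, l → XX4 hp Finset.univ on1 z = 0) ∧
    ∀ z : ZI, PP z → ¬ z ∣ ∏ l ∈ S, l →
      XX4 hp Finset.univ on1 z = (starRingEnd ℂ) (tc (Pool.Agent.Y699.q4 z (- -∏ l ∈ S, l))) := by
  have hD : DD (fun l : {l // l ∈ S} => ((l : GaussianInt) : ZI)) Finset.univ = ∏ l ∈ S, l := by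
    unfold DD
    exact Finset.prod_coe_sort S (fun l => l)
  have hS : ∑ i : {l // l ∈ S}, wq (i : ZI) = ∑ l ∈ S, wq l :=
    Finset.sum_coe_sort S (fun l => wq l)
  have hprm : ∀ l ∈ S, prim l := fun l hl => (hp.pp ⟨l, hl⟩).prm
  have hpar : (∑ i : {l // l ∈ S}, wq (i : ZI)) % 2 = 0 := by
    rw [hS]
    have h1 := norm_prod S hprm
    have h2 := norm_def' (∏ l ∈ S, l)
    obtain ⟨a, ha⟩ : ∃ a, (∏ l ∈ S, l).re = 8 * a + 5 := ⟨(∏ l ∈ S, l).re / 8, by omega⟩
    obtain ⟨b, hb⟩ : ∃ b, (∏ l ∈ S, l).im = 8 * b + 4 := ⟨(∏ l ∈ S, l).im / 8, by omega⟩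
    have h3 : (∏ l ∈ S, l).norm = 8 * (8 * a * a + 10 * a + 3 + 8 * b * b + 8 * b + 2) + 1 := by
      rw [h2, ha, hb]; ring
    generalize 8 * a * a + 10 * a + 3 + 8 * b * b + 8 * b + 2 = m at h3
    rw [h3] at h1
    have key : ∀ N : ℕ, (8 * m + 1) % 8 = (4 * (N : ℤ) + 1) % 8 → N % 2 = 0 := by
      intro N h; omega
    exact key _ h1
  refine ⟨?_, ?_, ?_⟩
  · rw [XX4_apply, un_even (by decide), tc_zero, zero_mul]
  · intro z hz hd
    rw [← hD] at hd
    have h0 : c4 (fun l : {l // l ∈ S} => ((l : GaussianInt) : ZI)) Finset.univ on1 z = 0 := by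
      unfold DD at hd
      obtain ⟨i, hi, h1⟩ := (Prime.dvd_finsetProd_iff hz.pr _).1 hd
      have h2 := PP.eq_of_dvd hz (hp.pp i) h1
      exact c4_zero on1 hi (h2 ▸ dvd_rfl)
    rw [XX4_prim hp Finset.univ on1 hz.prm, h0, tc_zero, map_zero]
  · intro z hz hd
    rw [← hD] at hd
    rw [XX4_prim hp Finset.univ on1 hz.prm, neg_neg, ← hD, c4_rec' JJ_all hp hpar hz hd]

end Pool.Agent.E8helper25.EW
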