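import Pool.Agent.E8helper76.EW.Stm
import Pool.Agent.E8helper25.EW.Che0

/-!
# Project EW: S_CHE, the values of the character
-/

namespace Pool.Agent.E8helper25.EW

theorem t_CHE : Pool.Agent.E8helper76.EW.S_CHE := fun S h hp => che S h.re h.im hp

end Pool.Agent.E8helper25.EW
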